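import Mathlib

set_option autoImplicit false

namespace Pool.Agent.Results.MP_4aa424_co.ChordalFirstFit

/-- A graph is chordal when every cycle `f 0, f 1, ..., f (n - 1)` of length `n ≥ 4` has a chord:
two vertices of the cycle that are adjacent in `G` but not consecutive on the cycle. -/
def IsChordal {V : Type} (G : SimpleGraph V) : Prop :=
  ∀ n : ℕ, 4 ≤ n → ∀ f : ZMod n → V, Function.Injective f → (∀ i, G.Adj (f i) (f (i + 1))) →
    ∃ i j, G.Adj (f i) (f j) ∧ j ≠ i + 1 ∧ i ≠ j + 1

/-- `c` is the First-Fit colouring of `G` for the ordering `σ 0, σ 1, ...` of its vertices: the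
vertex `σ s` gets the least positive integer not used on a neighbour `σ r` with `r < s`. -/
def IsFirstFit {V : Type} {n : ℕ} (G : SimpleGraph V) (σ : Fin n ≃ V) (c : Fin n → ℕ) : Prop :=
  ∀ s, IsLeast {k : ℕ | 1 ≤ k ∧ ∀ r, r < s → G.Adj (σ r) (σ s) → c r ≠ k} (c s)

/-- The numbers of colours used by First-Fit on `G`, over all orderings of the vertices. -/
def ffNumbers {V : Type} (G : SimpleGraph V) : Set ℕ :=
  {t | ∃ (n : ℕ) (σ : Fin n ≃ V) (c : Fin n → ℕ), IsFirstFit G σ c ∧ (Set.range c).ncard = t}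

/-- The First-Fit chromatic number: the largest number of colours used by First-Fit, over all
orderings of the vertices. -/
noncomputable def chiFF {V : Type} (G : SimpleGraph V) : ℕ := sSup (ffNumbers G)

/-- There are arbitrarily large chordal graphs with clique number `k` on which
`χ_FF ≥ c · ω · log n`. -/
def Attains (c : ℝ) (k : ℕ) : Prop :=
  ∀ N : ℕ, ∃ (V : Type) (_ : Fintype V) (G : SimpleGraph V),
    N ≤ Fintype.card V ∧ IsChordal G ∧ G.cliqueNum = k ∧
      c * (G.cliqueNum : ℝ) * Real.log (Fintype.card V) ≤ (chiFF G : ℝ)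

section FirstFit

variable {V : Type}

theorem ffNumbers_bdd [Fintype V] (G : SimpleGraph V) : BddAbove (ffNumbers G) := by
  refine ⟨Fintype.card V, ?_⟩
  rintro t ⟨n, σ, c, -, rfl⟩
  have h1 : n = Fintype.card V := by
    have := Fintype.card_congr σ
    simpa using this
  rw [← Set.image_univ]
  calc (c '' Set.univ).ncard ≤ (Set.univ : Set (Fin n)).ncard := Set.ncard_image_le
    _ = Fintype.card V := by rw [Set.ncard_univ, Nat.card_eq_fintype_card, Fintype.card_fin, h1]

/-- For every ordering there is a First-Fit colouring. -/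
theorem exists_firstFit {n : ℕ} (G : SimpleGraph V) (σ : Fin n ≃ V) :
    ∃ c : Fin n → ℕ, IsFirstFit G σ c := by
  classical
  have key : ∀ m : ℕ, m ≤ n → ∃ c : Fin n → ℕ, ∀ s : Fin n, (s : ℕ) < m →
      IsLeast {k : ℕ | 1 ≤ k ∧ ∀ r, r < s → G.Adj (σ r) (σ s) → c r ≠ k} (c s) := by
    intro m
    induction m with
    | zero => intro _; exact ⟨fun _ => 0, fun s hs => absurd hs (Nat.not_lt_zero _)⟩
    | succ m ih =>
      intro hm
      obtain ⟨c, hc⟩ := ih (by omega)
      let t : Fin n := ⟨m, by omega⟩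
      have hne : ∃ k : ℕ, 1 ≤ k ∧ ∀ r, r < t → G.Adj (σ r) (σ t) → c r ≠ k := by
        refine ⟨(Finset.univ.sup c) + 1, by omega, fun r _ _ h => ?_⟩
        have := Finset.le_sup (f := c) (Finset.mem_univ r)
        omega
      refine ⟨Function.update c t (Nat.find hne), fun s hs => ?_⟩
      rcases Nat.lt_succ_iff_lt_or_eq.1 hs with h | h
      · have hst : s < t := h
        rw [Function.update_of_ne hst.ne]
        have hset : {k : ℕ | 1 ≤ k ∧ ∀ r, r < s → G.Adj (σ r) (σ s) →
            Function.update c t (Nat.find hne) r ≠ k} =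
            {k : ℕ | 1 ≤ k ∧ ∀ r, r < s → G.Adj (σ r) (σ s) → c r ≠ k} := by
          ext k
          refine and_congr_right fun _ => forall_congr' fun r => forall_congr' fun hr => ?_
          rw [Function.update_of_ne (hr.trans hst).ne]
        rw [hset]
        exact hc s h
      · have hst : s = t := Fin.ext h
        rw [hst, Function.update_self]
        have hset : {k : ℕ | 1 ≤ k ∧ ∀ r, r < t → G.Adj (σ r) (σ t) →
            Function.update c t (Nat.find hne) r ≠ k} =
            {k : ℕ | 1 ≤ k ∧ ∀ r, r < t → G.Adj (σ r) (σ t) → c r ≠ k} := by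
          ext k
          refine and_congr_right fun _ => forall_congr' fun r => forall_congr' fun hr => ?_
          rw [Function.update_of_ne hr.ne]
        rw [hset]
        exact ⟨Nat.find_spec hne, fun k hk => Nat.find_min' hne hk⟩
  obtain ⟨c, hc⟩ := key n le_rfl
  exact ⟨c, fun s => hc s s.2⟩

/-- The maximum in the definition of `χ_FF` is attained. -/
theorem chiFF_isGreatest [Fintype V] (G : SimpleGraph V) : IsGreatest (ffNumbers G) (chiFF G) := by
  have hne : (ffNumbers G).Nonempty := by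
    obtain ⟨c, hc⟩ := exists_firstFit G (Fintype.equivFin V).symm
    exact ⟨_, _, _, c, hc, rfl⟩
  exact ⟨Nat.sSup_mem hne (ffNumbers_bdd G), fun t ht => le_csSup (ffNumbers_bdd G) ht⟩

/-- A wall gives a lower bound for `χ_FF`. -/
theorem wall_le [Fintype V] (G : SimpleGraph V) (L : V → ℕ) (h1 : ∀ v, 1 ≤ L v)
    (h2 : ∀ u v, G.Adj u v → L u ≠ L v)
    (h3 : ∀ v l, 1 ≤ l → l < L v → ∃ u, G.Adj u v ∧ L u = l) (v₀ : V) : L v₀ ≤ chiFF G := by
  classical
  let e : Fin (Fintype.card V) ≃ V := (Fintype.equivFin V).symm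
  let σ : Fin (Fintype.card V) ≃ V := (Tuple.sort (L ∘ e)).trans e
  have hmono : Monotone (fun s => L (σ s)) := Tuple.monotone_sort (L ∘ e)
  have hff : IsFirstFit G σ (fun s => L (σ s)) := by
    intro s
    refine ⟨⟨h1 _, fun r _ hadj => h2 _ _ hadj⟩, ?_⟩
    rintro l ⟨hl1, hl⟩
    by_contra hlt
    push Not at hlt
    obtain ⟨u, hu, hul⟩ := h3 (σ s) l hl1 hlt
    have hrs : σ.symm u < s := by
      by_contra hge
      push Not at hge
      have := hmono hge
      simp only [Equiv.apply_symm_apply] at this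
      omega
    exact hl (σ.symm u) hrs (by simpa using hu) (by simpa using hul)
  have hmem : (Set.range fun s => L (σ s)).ncard ∈ ffNumbers G := ⟨_, σ, _, hff, rfl⟩
  refine le_trans ?_ (le_csSup (ffNumbers_bdd G) hmem)
  have hsub : (Set.Icc 1 (L v₀)) ⊆ Set.range fun s => L (σ s) := by
    rintro l ⟨hl1, hl2⟩
    rcases hl2.lt_or_eq with h | h
    · obtain ⟨u, -, hu⟩ := h3 v₀ l hl1 h
      exact ⟨σ.symm u, by simpa using hu⟩
    · exact ⟨σ.symm v₀, by simpa using h.symm⟩
  calc L v₀ = (Set.Icc 1 (L v₀)).ncard := by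
        rw [← Finset.coe_Icc, Set.ncard_coe_finset]; simp
    _ ≤ _ := Set.ncard_le_ncard hsub (Set.finite_range _)

/-- First-Fit uses at most one colour on a graph with clique number `1`. -/
theorem chiFF_le_one [Fintype V] (G : SimpleGraph V) (h : G.cliqueNum = 1) : chiFF G ≤ 1 := by
  classical
  have hno : ∀ u v, ¬ G.Adj u v := by
    intro u v huv
    have hc : G.IsClique (({u, v} : Finset V) : Set V) := by
      simp [huv]
    have h2 := hc.card_le_cliqueNum
    rw [Finset.card_pair huv.ne, h] at h2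
    omega
  obtain ⟨n, σ, c, hc, ht⟩ := (chiFF_isGreatest G).1
  rw [← ht]
  have hsub : Set.range c ⊆ {1} := by
    rintro _ ⟨s, rfl⟩
    have h1 := (hc s).1.1
    have h2 : c s ≤ 1 := (hc s).2 ⟨le_rfl, fun r _ hadj => absurd hadj (hno _ _)⟩
    exact le_antisymm h2 h1
  calc (Set.range c).ncard ≤ ({1} : Set ℕ).ncard := Set.ncard_le_ncard hsub (Set.finite_singleton _)
    _ = 1 := Set.ncard_singleton _

end FirstFit

/-- A graph with an elimination order is chordal. -/
theorem chordal_of_rank {V : Type} (G : SimpleGraph V) (r : V → ℕ) (hr : Function.Injective r)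
    (h : ∀ v u w, G.Adj v u → G.Adj v w → r u < r v → r w < r v → u ≠ w → G.Adj u w) :
    IsChordal G := by
  intro n hn f hf hadj
  have : NeZero n := ⟨by omega⟩
  obtain ⟨i, hi⟩ := Finite.exists_max (fun i => r (f i))
  have hn1 : ((1 : ℕ) : ZMod n) ≠ 0 := by
    rw [Ne, ZMod.natCast_eq_zero_iff]
    intro h; have := Nat.le_of_dvd (by norm_num) h; omega
  have hn2 : ((2 : ℕ) : ZMod n) ≠ 0 := by
    rw [Ne, ZMod.natCast_eq_zero_iff]
    intro h; have := Nat.le_of_dvd (by norm_num) h; omega
  have hn3 : ((3 : ℕ) : ZMod n) ≠ 0 := by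
    rw [Ne, ZMod.natCast_eq_zero_iff]
    intro h; have := Nat.le_of_dvd (by norm_num) h; omega
  have hlt : ∀ j, j ≠ i → r (f j) < r (f i) := fun j hj =>
    lt_of_le_of_ne (hi j) (fun he => hj (hf (hr he)))
  have a1 : G.Adj (f i) (f (i - 1)) := by
    have := hadj (i - 1)
    rw [sub_add_cancel] at this
    exact this.symm
  have e1 : i - 1 ≠ i := by
    intro he
    apply hn1
    have : (1 : ZMod n) = i - (i - 1) := by ring
    rw [he, sub_self] at this
    simpa using this
  have e2 : i + 1 ≠ i := by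
    intro he
    apply hn1
    have : (1 : ZMod n) = (i + 1) - i := by ring
    rw [he, sub_self] at this
    simpa using this
  have e3 : i - 1 ≠ i + 1 := by
    intro he
    apply hn2
    have : ((2 : ℕ) : ZMod n) = (i + 1) - (i - 1) := by push_cast; ring
    rw [← he, sub_self] at this
    exact this
  refine ⟨i - 1, i + 1, h (f i) _ _ a1 (hadj i) (hlt _ e1) (hlt _ e2) (fun he => e3 (hf he)), ?_, ?_⟩
  · intro he
    apply e2
    rw [he]; ring
  · intro he
    apply hn3
    have : ((3 : ℕ) : ZMod n) = (i + 1 + 1) - (i - 1) := by push_cast; ring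
    rw [← he, sub_self] at this
    exact this

/-- In the binomial tree on the natural numbers, `y` is a child of `x`. -/
def Child (x y : ℕ) : Prop := ∃ i : ℕ, 2 ^ (i + 1) ∣ x ∧ y = x + 2 ^ i

theorem Child.val {x y i : ℕ} (h1 : 2 ^ (i + 1) ∣ x) (h2 : y = x + 2 ^ i) :
    padicValNat 2 y = i := by
  obtain ⟨q, rfl⟩ := h1
  have : y = 2 ^ i * (2 * q + 1) := by rw [h2]; ring
  rw [this, padicValNat.mul (by positivity) (by omega), padicValNat.prime_pow,
    padicValNat.eq_zero_of_not_dvd (by omega)]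
  rfl

theorem Child.parent {x y : ℕ} (h : Child x y) : x = y - 2 ^ (padicValNat 2 y) := by
  obtain ⟨i, h1, h2⟩ := h
  rw [Child.val h1 h2]
  omega

theorem Child.lt {x y : ℕ} (h : Child x y) : x < y := by
  obtain ⟨i, -, h2⟩ := h
  have : 0 < 2 ^ i := by positivity
  omega

/-- The blow-up of the binomial tree on `2 ^ h` vertices by cliques on `a` vertices, together with
a disjoint complete graph on `k` vertices. -/
def BG (h a k : ℕ) : SimpleGraph ((Fin (2 ^ h) × Fin a) ⊕ Fin k) where
  Adj u v := match u, v with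
    | Sum.inl p, Sum.inl q => (p.1 = q.1 ∧ p.2 ≠ q.2) ∨ Child p.1 q.1 ∨ Child q.1 p.1
    | Sum.inr i, Sum.inr j => i ≠ j
    | _, _ => False
  symm := by
    constructor
    rintro (p | i) (q | j) h
    · rcases h with ⟨h1, h2⟩ | h | h
      · exact Or.inl ⟨h1.symm, h2.symm⟩
      · exact Or.inr (Or.inr h)
      · exact Or.inr (Or.inl h)
    · exact h
    · exact h
    · exact Ne.symm h
  loopless := by
    constructor
    rintro (p | i) h
    · rcases h with ⟨-, h⟩ | h | h
      · exact h rfl
      · exact absurd h.lt (lt_irrefl _)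
      · exact absurd h.lt (lt_irrefl _)
    · exact h rfl

/-- The elimination order. -/
def rk (h a k : ℕ) : (Fin (2 ^ h) × Fin a) ⊕ Fin k → ℕ
  | Sum.inl p => p.1 * a + p.2
  | Sum.inr j => 2 ^ h * a + j

theorem lex_lt {a x y b b' : ℕ} (hb : b < a) (h : x < y) : x * a + b < y * a + b' := by
  have : (x + 1) * a ≤ y * a := Nat.mul_le_mul_right _ h
  nlinarith

theorem rk_inj (h a k : ℕ) : Function.Injective (rk h a k) := by
  rintro (p | i) (q | j) he
  · simp only [rk] at he
    have h1 : (p.1 : ℕ) = q.1 := by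
      rcases lt_trichotomy (p.1 : ℕ) q.1 with hlt | heq | hlt
      · have := lex_lt (b' := (q.2 : ℕ)) p.2.2 hlt; omega
      · exact heq
      · have := lex_lt (b' := (p.2 : ℕ)) q.2.2 hlt; omega
    have h2 : (p.2 : ℕ) = q.2 := by rw [h1] at he; omega
    exact congrArg Sum.inl (Prod.ext (Fin.ext h1) (Fin.ext h2))
  · simp only [rk] at he
    have := lex_lt (b' := (j : ℕ)) p.2.2 p.1.2
    omega
  · simp only [rk] at he
    have := lex_lt (b' := (i : ℕ)) q.2.2 q.1.2
    omega
  · simp only [rk] at he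
    exact congrArg Sum.inr (Fin.ext (by omega))

/-- The neighbours of `inl p` of smaller rank. -/
theorem smaller_nbr {h a k : ℕ} {p : Fin (2 ^ h) × Fin a} {v : (Fin (2 ^ h) × Fin a) ⊕ Fin k}
    (hadj : (BG h a k).Adj (Sum.inl p) v) (hlt : rk h a k v < rk h a k (Sum.inl p)) :
    ∃ q : Fin (2 ^ h) × Fin a, v = Sum.inl q ∧ ((q.1 = p.1 ∧ q.2 ≠ p.2) ∨ Child q.1 p.1) := by
  rcases v with q | j
  · refine ⟨q, rfl, ?_⟩
    rcases hadj with ⟨h1, h2⟩ | h1 | h1
    · exact Or.inl ⟨h1.symm, h2.symm⟩
    · exfalso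
      simp only [rk] at hlt
      have := lex_lt (b' := (q.2 : ℕ)) p.2.2 h1.lt
      omega
    · exact Or.inr h1
  · exact hadj.elim

theorem BG_chordal (h a k : ℕ) : IsChordal (BG h a k) := by
  apply chordal_of_rank _ _ (rk_inj h a k)
  rintro (p | i) u w hu hw hru hrw hne
  · obtain ⟨q, rfl, hq⟩ := smaller_nbr hu hru
    obtain ⟨q', rfl, hq'⟩ := smaller_nbr hw hrw
    have hne' : q ≠ q' := fun he => hne (congrArg Sum.inl he)
    rcases hq with ⟨h1, h2⟩ | h1 <;> rcases hq' with ⟨h3, h4⟩ | h3
    · left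
      refine ⟨h1.trans h3.symm, fun he => hne' (Prod.ext (h1.trans h3.symm) he)⟩
    · right; right; rw [h1]; exact h3
    · right; left; rw [h3]; exact h1
    · left
      have : q.1 = q'.1 := Fin.ext (h1.parent.trans h3.parent.symm)
      exact ⟨this, fun he => hne' (Prod.ext this he)⟩
  · rcases u with q | j
    · exact hu.elim
    · rcases w with q' | j'
      · exact hw.elim
      · exact fun he => hne (congrArg Sum.inr he)

theorem BG_clique_card {h a k : ℕ} (hak : 2 * a ≤ k)
    (s : Finset ((Fin (2 ^ h) × Fin a) ⊕ Fin k)) (hs : (BG h a k).IsClique (s : Set _)) :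
    s.card ≤ k := by
  classical
  rcases s.eq_empty_or_nonempty with rfl | hne
  · simp
  obtain ⟨v, hv, hmax⟩ := s.exists_max_image (rk h a k) hne
  have hlt : ∀ u ∈ s, u ≠ v → rk h a k u < rk h a k v := fun u hu huv =>
    lt_of_le_of_ne (hmax u hu) (fun he => huv (rk_inj h a k he))
  rcases v with p | i
  · have hsub : s ⊆ ((Finset.univ.filter
        (fun x : Fin (2 ^ h) => x = p.1 ∨ (x : ℕ) = (p.1 : ℕ) - 2 ^ (padicValNat 2 p.1))) ×ˢ
        (Finset.univ : Finset (Fin a))).map Function.Embedding.inl := by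
      intro u hu
      by_cases huv : u = Sum.inl p
      · subst huv
        simp
      · obtain ⟨q, rfl, hq⟩ := smaller_nbr (hs hv hu (Ne.symm huv)) (hlt u hu huv)
        rcases hq with ⟨h1, -⟩ | h1
        · simp [h1]
        · simp [h1.parent]
    have hcard : (Finset.univ.filter
        (fun x : Fin (2 ^ h) => x = p.1 ∨ (x : ℕ) = (p.1 : ℕ) - 2 ^ (padicValNat 2 p.1))).card ≤ 2 := by
      rw [Finset.filter_or]
      refine (Finset.card_union_le _ _).trans ?_
      have h1 : (Finset.univ.filter (fun x : Fin (2 ^ h) => x = p.1)).card ≤ 1 := by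
        rw [Finset.card_le_one]
        intro x hx y hy
        simp only [Finset.mem_filter, Finset.mem_univ, true_and] at hx hy
        rw [hx, hy]
      have h2 : (Finset.univ.filter
          (fun x : Fin (2 ^ h) => (x : ℕ) = (p.1 : ℕ) - 2 ^ (padicValNat 2 p.1))).card ≤ 1 := by
        rw [Finset.card_le_one]
        intro x hx y hy
        simp only [Finset.mem_filter, Finset.mem_univ, true_and] at hx hy
        exact Fin.ext (hx.trans hy.symm)
      omega
    calc s.card ≤ _ := Finset.card_le_card hsub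
      _ = _ * a := by rw [Finset.card_map, Finset.card_product, Finset.card_univ, Fintype.card_fin]
      _ ≤ 2 * a := Nat.mul_le_mul_right _ hcard
      _ ≤ k := hak
  · have hsub : s ⊆ (Finset.univ : Finset (Fin k)).map Function.Embedding.inr := by
      intro u hu
      rcases u with q | j
      · exact (hs hv hu (by simp)).elim
      · simp
    calc s.card ≤ _ := Finset.card_le_card hsub
      _ = k := by simp

theorem BG_cliqueNum {h a k : ℕ} (hak : 2 * a ≤ k) : (BG h a k).cliqueNum = k := by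
  classical
  apply le_antisymm
  · obtain ⟨s, hs⟩ := (BG h a k).exists_isNClique_cliqueNum
    rw [← hs.card_eq]
    exact BG_clique_card hak s hs.isClique
  · let S : Finset ((Fin (2 ^ h) × Fin a) ⊕ Fin k) :=
      (Finset.univ : Finset (Fin k)).map Function.Embedding.inr
    have hc : (BG h a k).IsClique (S : Set ((Fin (2 ^ h) × Fin a) ⊕ Fin k)) := by
      intro u hu v hv huv
      simp only [S, Finset.mem_coe, Finset.mem_map, Finset.mem_univ, true_and] at hu hv
      obtain ⟨i, rfl⟩ := hu
      obtain ⟨j, rfl⟩ := hv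
      exact fun he => huv (by rw [he])
    have := hc.card_le_cliqueNum
    simpa [S] using this

/-- The level of a vertex of the binomial tree. -/
def idx (h x : ℕ) : ℕ := if x = 0 then h else padicValNat 2 x

theorem idx_child {h x y i : ℕ} (h1 : 2 ^ (i + 1) ∣ x) (h2 : y = x + 2 ^ i) : idx h y = i := by
  have : 0 < 2 ^ i := by positivity
  rw [idx, if_neg (by omega), Child.val h1 h2]

theorem idx_parent {h x y i : ℕ} (h1 : 2 ^ (i + 1) ∣ x) (h2 : y = x + 2 ^ i) (hy : y < 2 ^ h) :
    i < idx h x := by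
  rw [idx]
  split_ifs with hx
  · subst hx
    rw [zero_add] at h2
    subst h2
    exact (Nat.pow_lt_pow_iff_right (by norm_num)).1 hy
  · exact (padicValNat_dvd_iff_le hx).1 h1

theorem dvd_of_lt_idx {h x i : ℕ} (hi : i < idx h x) : 2 ^ (i + 1) ∣ x := by
  rw [idx] at hi
  split_ifs at hi with hx
  · rw [hx]; exact dvd_zero _
  · exact (padicValNat_dvd_iff_le hx).2 hi

theorem lt_of_lt_idx {h x i : ℕ} (hx : x < 2 ^ h) (hi : i < idx h x) : x + 2 ^ i < 2 ^ h := by
  have hih : i < h := by
    rw [idx] at hi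
    split_ifs at hi with h0
    · exact hi
    · have h1 : 2 ^ (padicValNat 2 x) ≤ x := Nat.le_of_dvd (Nat.pos_of_ne_zero h0) pow_padicValNat_dvd
      have h2 : 2 ^ (padicValNat 2 x) < 2 ^ h := lt_of_le_of_lt h1 hx
      have h3 := (Nat.pow_lt_pow_iff_right (by norm_num : 1 < 2)).1 h2
      omega
  have h1 : 2 ^ (i + 1) ∣ x := dvd_of_lt_idx hi
  have h2 : 2 ^ (i + 1) ∣ 2 ^ h := pow_dvd_pow _ hih
  have h3 : 2 ^ (i + 1) ∣ 2 ^ h - x := Nat.dvd_sub h2 h1
  have h4 : 2 ^ (i + 1) ≤ 2 ^ h - x := Nat.le_of_dvd (by omega) h3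
  have h5 : 2 ^ i < 2 ^ (i + 1) := Nat.pow_lt_pow_right (by norm_num) (by omega)
  omega

/-- The wall. -/
def lev (h a k : ℕ) : (Fin (2 ^ h) × Fin a) ⊕ Fin k → ℕ
  | Sum.inl p => idx h p.1 * a + p.2 + 1
  | Sum.inr j => j + 1

theorem lev_pos (h a k : ℕ) (v) : 1 ≤ lev h a k v := by
  rcases v with p | j <;> simp [lev]

theorem lev_ne_aux {h a k : ℕ} {p q : Fin (2 ^ h) × Fin a} (hc : Child p.1 q.1) :
    lev h a k (Sum.inl q) < lev h a k (Sum.inl p) := by
  obtain ⟨i, h1, h2⟩ := hc
  have h3 := idx_child (h := h) h1 h2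
  have h4 := idx_parent h1 h2 q.1.2
  simp only [lev]
  rw [h3]
  have := lex_lt (b' := (p.2 : ℕ)) q.2.2 h4
  omega

theorem lev_ne {h a k : ℕ} (u v) (hadj : (BG h a k).Adj u v) : lev h a k u ≠ lev h a k v := by
  rcases u with p | i <;> rcases v with q | j
  · rcases hadj with ⟨h1, h2⟩ | h1 | h1
    · simp only [lev, h1]
      intro he
      exact h2 (Fin.ext (by omega))
    · exact (lev_ne_aux h1).ne'
    · exact (lev_ne_aux h1).ne
  · exact hadj.elim
  · exact hadj.elim
  · simp only [lev]
    intro he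
    exact hadj (Fin.ext (by omega))

theorem lev_lower {h a k : ℕ} (v) (l : ℕ) (hl1 : 1 ≤ l) (hl : l < lev h a k v) :
    ∃ u, (BG h a k).Adj u v ∧ lev h a k u = l := by
  rcases v with p | j
  · simp only [lev] at hl
    have ha : 0 < a := p.2.pos
    have hdm := Nat.div_add_mod (l - 1) a
    have hmod := Nat.mod_lt (l - 1) ha
    set i := (l - 1) / a with hi
    set b := (l - 1) % a with hb
    have hli : i * a + b + 1 = l := by
      have : a * i = i * a := mul_comm _ _
      omega
    have hile : i ≤ idx h p.1 := by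
      by_contra hcon
      push Not at hcon
      have := lex_lt (b' := b) p.2.2 hcon
      omega
    rcases hile.lt_or_eq with hlt | heq
    · have hd := dvd_of_lt_idx hlt
      have hx := lt_of_lt_idx p.1.2 hlt
      refine ⟨Sum.inl (⟨p.1 + 2 ^ i, hx⟩, ⟨b, hmod⟩), ?_, ?_⟩
      · right; right
        exact ⟨i, hd, rfl⟩
      · simp only [lev]
        rw [idx_child hd rfl]
        exact hli
    · refine ⟨Sum.inl (p.1, ⟨b, hmod⟩), ?_, ?_⟩
      · left
        refine ⟨rfl, ?_⟩
        intro he
        have : b = (p.2 : ℕ) := congrArg Fin.val he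
        rw [heq] at hli
        omega
      · simp only [lev]
        rw [← heq]
        exact hli
  · simp only [lev] at hl
    refine ⟨Sum.inr ⟨l - 1, by omega⟩, ?_, ?_⟩
    · intro he
      have : l - 1 = (j : ℕ) := congrArg Fin.val he
      omega
    · simp only [lev]; omega

theorem BG_chiFF {h a k : ℕ} (ha : 0 < a) : (h + 1) * a ≤ chiFF (BG h a k) := by
  have := wall_le (BG h a k) (lev h a k) (lev_pos h a k) lev_ne lev_lower
    (Sum.inl (⟨0, by positivity⟩, ⟨a - 1, by omega⟩))
  refine le_trans ?_ this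
  simp only [lev, idx, if_true]
  have : (h + 1) * a = h * a + a := by ring
  omega

/-- There is an absolute constant `c > 0` such that for every `k ≥ 2` there are arbitrarily large
chordal graphs `G` with clique number `k` and `χ_FF(G) ≥ c · ω(G) · log n`; for `k = 1` no `c > 0`
works (First-Fit uses one colour on edgeless graphs). -/
theorem result :
    (∃ c : ℝ, 0 < c ∧ ∀ k : ℕ, 2 ≤ k → Attains c k) ∧ (∀ c : ℝ, 0 < c → ¬ Attains c 1) := by
  constructor
  · refine ⟨1 / 6, by norm_num, fun k hk N => ?_⟩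
    have ha : 0 < k / 2 := by omega
    have hak : 2 * (k / 2) ≤ k := by omega
    set h := N + k with hh
    refine ⟨_, inferInstance, BG h (k / 2) k, ?_, BG_chordal _ _ _, BG_cliqueNum hak, ?_⟩
    · rw [Fintype.card_sum, Fintype.card_prod, Fintype.card_fin, Fintype.card_fin, Fintype.card_fin]
      have h1 : h < 2 ^ h := Nat.lt_two_pow_self
      have h2 : 2 ^ h * 1 ≤ 2 ^ h * (k / 2) := Nat.mul_le_mul_left _ ha
      omega
    · have hff := BG_chiFF (h := h) (k := k) ha
      rw [BG_cliqueNum hak]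
      have hcard : Fintype.card ((Fin (2 ^ h) × Fin (k / 2)) ⊕ Fin k) = 2 ^ h * (k / 2) + k := by
        rw [Fintype.card_sum, Fintype.card_prod, Fintype.card_fin, Fintype.card_fin,
          Fintype.card_fin]
      rw [hcard]
      have h2h : 2 ≤ 2 ^ h := by
        calc 2 = 2 ^ 1 := by norm_num
          _ ≤ 2 ^ h := Nat.pow_le_pow_right (by norm_num) (by omega)
      have hle : 2 ^ h * (k / 2) + k ≤ 2 ^ (2 * h) := by
        have h1 : 2 ^ h * (k / 2) + k ≤ 2 ^ h * k := by
          have h3 : 2 ^ h * k = 2 ^ h * (k / 2) + 2 ^ h * (k - k / 2) := by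
            rw [← mul_add]; congr 1; omega
          have h4 : 2 * (k - k / 2) ≤ 2 ^ h * (k - k / 2) := Nat.mul_le_mul_right _ h2h
          omega
        have h2 : k ≤ 2 ^ h := by
          have : h < 2 ^ h := Nat.lt_two_pow_self
          omega
        calc _ ≤ 2 ^ h * k := h1
          _ ≤ 2 ^ h * 2 ^ h := Nat.mul_le_mul_left _ h2
          _ = 2 ^ (2 * h) := by rw [← pow_add]; congr 1; ring
      have hpos : (0 : ℝ) < ((2 ^ h * (k / 2) + k : ℕ) : ℝ) := by
        have : 0 < 2 ^ h * (k / 2) + k := by omega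
        exact_mod_cast this
      have hlog : Real.log ((2 ^ h * (k / 2) + k : ℕ) : ℝ) ≤ 2 * h := by
        calc Real.log ((2 ^ h * (k / 2) + k : ℕ) : ℝ) ≤ Real.log (((2 ^ (2 * h) : ℕ)) : ℝ) :=
              Real.log_le_log hpos (by exact_mod_cast hle)
          _ = 2 * h * Real.log 2 := by push_cast; rw [Real.log_pow]; push_cast; ring
          _ ≤ 2 * h * 1 := by
              apply mul_le_mul_of_nonneg_left _ (by positivity)
              have := Real.log_two_lt_d9
              linarith
          _ = 2 * h := mul_one _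
      have hk3 : (k : ℝ) ≤ 3 * ((k / 2 : ℕ) : ℝ) := by
        have : k ≤ 3 * (k / 2) := by omega
        exact_mod_cast this
      have hffR : ((h : ℝ) + 1) * ((k / 2 : ℕ) : ℝ) ≤ (chiFF (BG h (k / 2) k) : ℝ) := by
        exact_mod_cast hff
      have hkR : (0 : ℝ) ≤ (k : ℝ) := by positivity
      have hhR : (0 : ℝ) ≤ (h : ℝ) := by positivity
      have haR : (0 : ℝ) ≤ ((k / 2 : ℕ) : ℝ) := by positivity
      calc 1 / 6 * (k : ℝ) * Real.log ((2 ^ h * (k / 2) + k : ℕ) : ℝ)
          ≤ 1 / 6 * (k : ℝ) * (2 * h) := mul_le_mul_of_nonneg_left hlog (by positivity)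
        _ = (k : ℝ) * h / 3 := by ring
        _ ≤ (3 * ((k / 2 : ℕ) : ℝ)) * h / 3 := by
            have := mul_le_mul_of_nonneg_right hk3 hhR
            linarith
        _ ≤ ((h : ℝ) + 1) * ((k / 2 : ℕ) : ℝ) := by nlinarith
        _ ≤ _ := hffR
  · intro c hc hatt
    obtain ⟨N, hN⟩ := exists_nat_gt (Real.exp (1 / c))
    obtain ⟨V, _, G, hcard, -, hcl, hle⟩ := hatt N
    have h1 : chiFF G ≤ 1 := chiFF_le_one G hcl
    have h2 : 1 / c < Real.log (Fintype.card V) := by
      rw [Real.lt_log_iff_exp_lt]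
      · exact lt_of_lt_of_le hN (by exact_mod_cast hcard)
      · exact lt_of_lt_of_le (lt_trans (Real.exp_pos _) hN) (by exact_mod_cast hcard)
    rw [hcl] at hle
    have h3 : (chiFF G : ℝ) ≤ 1 := by exact_mod_cast h1
    have h4 : c * (1 / c) < c * Real.log (Fintype.card V) := mul_lt_mul_of_pos_left h2 hc
    rw [mul_one_div_cancel hc.ne'] at h4
    push_cast at hle
    linarith

end Pool.Agent.Results.MP_4aa424_co.ChordalFirstFit
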